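import Mathlib

set_option autoImplicit false
set_option maxHeartbeats 400000

namespace Pool.Agent.Results.MP_d68c88_al.Constants

open Module

section defs
variable {K L : Type} [Field K] [LieRing L] [LieAlgebra K L]

def gen2 (δ : L → L) (K : Type) [SMul K L] : Set L :=
  {c | δ c = 0 ∧ ∃ (f g : L) (r : ℕ) (α : K), δ^[r] f = α • g ∧ α • g ≠ 0 ∧ c = ⁅f, g⁆}

def gen3 (δ : L → L) (B : Set L) : Set L :=
  {c | δ c = 0 ∧ ∃ a ∈ B, ∃ b ∈ B, c = ⁅δ a, b⁆ - ⁅a, δ b⁆}

def Claim (K : Type) {L : Type} [Field K] [LieRing L] [LieAlgebra K L] (x y : L) : Prop :=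
  (∃ δ : LieDerivation K L L, δ x = 0 ∧ δ y = x) ∧
  ∀ δ : LieDerivation K L L, δ x = 0 → δ y = x → ∀ (B : Set L) (u : L),
    δ u = 0 ↔ u ∈ LieSubalgebra.lieSpan K L ({x} ∪ gen2 δ K ∪ gen3 δ B)

end defs

section sl2
variable {K M : Type} [Field K] [CharZero K] [AddCommGroup M] [Module K M] {E F H : End K M}

lemma wtF (hF : ∀ v, H (F v) = F (H v) - (2 : K) • F v) {v : M} {l : K} (hv : H v = l • v) (k : ℕ) :
    H ((F ^ k) v) = (l - 2 * k) • (F ^ k) v := by
  induction k with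
  | zero => simpa using hv
  | succ k ih =>
    rw [pow_succ', End.mul_apply, hF, ih, map_smul, ← sub_smul]
    congr 1; push_cast; ring

lemma lemA (hEF : ∀ v, E (F v) = F (E v) + H v) (hF : ∀ v, H (F v) = F (H v) - (2 : K) • F v)
    {v : M} {l : K} (hv : H v = l • v) (k : ℕ) :
    E ((F ^ (k + 1)) v) = (F ^ (k + 1)) (E v) + (((k : K) + 1) * (l - k)) • (F ^ k) v := by
  induction k with
  | zero => simp [hEF, hv]
  | succ k ih =>
    rw [pow_succ' F (k + 1), End.mul_apply, hEF, ih, wtF hF hv, map_add, map_smul, End.mul_apply,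
      pow_succ' F k, End.mul_apply, End.mul_apply, add_assoc, ← add_smul]
    congr 2; push_cast; ring

lemma coef_ne (k : ℕ) (l : ℤ) (h : l ≠ k) : ((k : K) + 1) * ((l : K) - k) ≠ 0 := by
  refine mul_ne_zero (Nat.cast_add_one_ne_zero k) ?_
  have : ((l - k : ℤ) : K) ≠ 0 := Int.cast_ne_zero.2 (sub_ne_zero.2 h)
  simpa using this

lemma lemB (hEF : ∀ v, E (F v) = F (E v) + H v) (hF : ∀ v, H (F v) = F (H v) - (2 : K) • F v)
    (hE : ∀ v, H (E v) = E (H v) + (2 : K) • E v) (N : Submodule K M)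
    (NE : ∀ v ∈ N, E v ∈ N) (NF : ∀ v ∈ N, F v ∈ N) (j : ℕ) :
    ∀ v ∈ N, ∀ (l : ℤ) (k : ℕ), H v = (l : K) • v → (E ^ j) v = 0 → (k : ℤ) < l →
      (F ^ k) v ∈ N.map E := by
  have NFk : ∀ k, ∀ v ∈ N, (F ^ k) v ∈ N := fun k => by
    induction k with
    | zero => simp
    | succ k ih => intro v hv; rw [pow_succ', End.mul_apply]; exact NF _ (ih v hv)
  induction j with
  | zero => intro v _ l k _ h _; simp at h; simp [h]
  | succ j ih =>
    intro v hv l k hl hj hk
    have h1 := ih (E v) (NE v hv) (l + 2) (k + 1)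
      (by rw [hE, hl, map_smul, ← add_smul]; push_cast; rfl)
      (by rwa [pow_succ, End.mul_apply] at hj) (by push_cast; omega)
    have h2 := lemA hEF hF hl k
    have h3 : (((k : K) + 1) * (l - k)) • (F ^ k) v ∈ N.map E := by
      rw [← sub_eq_iff_eq_add'.2 h2]
      exact sub_mem ⟨_, NFk _ v hv, rfl⟩ h1
    exact (Submodule.smul_mem_iff _ (coef_ne k l hk.ne')).1 h3

lemma lemC (hEF : ∀ v, E (F v) = F (E v) + H v) (hF : ∀ v, H (F v) = F (H v) - (2 : K) • F v)
    {v : M} {l : ℤ} (hv : H v = (l : K) • v) (hl : l < 0) (h0 : E v = 0) (j : ℕ)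
    (hj : (F ^ j) v = 0) : v = 0 := by
  induction j with
  | zero => simpa using hj
  | succ j ih =>
    have h2 := lemA hEF hF hv j
    rw [hj, h0, map_zero, map_zero, zero_add] at h2
    exact ih ((smul_eq_zero.1 h2.symm).resolve_left (coef_ne j l (by omega)))

lemma indep (s : Finset ℤ) : ∀ c : ℤ → M, (∀ m, H (c m) = ((m : K) + 2) • c m) →
    ∑ m ∈ s, c m = 0 → ∀ m ∈ s, c m = 0 := by
  induction s using Finset.induction_on with
  | empty => simp
  | insert a s ha ih =>
    intro c hc h0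
    rw [Finset.sum_insert ha] at h0
    have h1 : ∑ m ∈ s, ((m : K) - a) • c m = 0 := by
      have := congrArg H h0
      rw [map_add, map_sum, map_zero, hc, eq_neg_of_add_eq_zero_left h0, smul_neg,
        Finset.smul_sum, neg_add_eq_sub, ← Finset.sum_sub_distrib] at this
      rw [← this]
      refine Finset.sum_congr rfl fun m _ => ?_
      rw [hc, ← sub_smul]; congr 1; ring
    have h2 : ∀ m ∈ s, c m = 0 := fun m hm => by
      have := ih (fun m => ((m : K) - a) • c m) (fun m => by rw [map_smul, hc, smul_comm]) h1 m hm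
      refine (smul_eq_zero.1 this).resolve_left fun h => ha ?_
      have : m = a := by exact_mod_cast sub_eq_zero.1 h
      exact this ▸ hm
    intro m hm
    rcases Finset.mem_insert.1 hm with rfl | hm
    · rwa [Finset.sum_eq_zero h2, add_zero] at h0
    · exact h2 m hm

omit [CharZero K] in
lemma nil_add {a b : M} (ha : ∃ j, (E ^ j) a = 0) (hb : ∃ j, (E ^ j) b = 0) :
    ∃ j, (E ^ j) (a + b) = 0 := by
  obtain ⟨i, hi⟩ := ha
  obtain ⟨j, hj⟩ := hb
  refine ⟨i + j, ?_⟩
  rw [map_add, pow_add, End.mul_apply, End.mul_apply, hj, ← End.mul_apply, ← pow_add, add_comm i,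
    pow_add, End.mul_apply, hi]
  simp

end sl2

section der
variable {K : Type} [Field K]

def Du (L : Type) : Type := L × L

variable {L : Type} [LieRing L] [LieAlgebra K L]

instance : AddCommGroup (Du L) := inferInstanceAs (AddCommGroup (L × L))
instance : Module K (Du L) := inferInstanceAs (Module K (L × L))
instance : LieRing (Du L) where
  bracket p q := (⁅p.1, q.1⁆, ⁅p.1, q.2⁆ + ⁅p.2, q.1⁆)
  add_lie p q r := Prod.ext (add_lie p.1 q.1 r.1) (by
    change ⁅p.1 + q.1, r.2⁆ + ⁅p.2 + q.2, r.1⁆ = ⁅p.1, r.2⁆ + ⁅p.2, r.1⁆ + (⁅q.1, r.2⁆ + ⁅q.2, r.1⁆)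
    simp only [add_lie]; abel)
  lie_add p q r := Prod.ext (lie_add p.1 q.1 r.1) (by
    change ⁅p.1, q.2 + r.2⁆ + ⁅p.2, q.1 + r.1⁆ = ⁅p.1, q.2⁆ + ⁅p.2, q.1⁆ + (⁅p.1, r.2⁆ + ⁅p.2, r.1⁆)
    simp only [lie_add]; abel)
  lie_self p := Prod.ext (lie_self p.1) (by
    change ⁅p.1, p.2⁆ + ⁅p.2, p.1⁆ = 0
    rw [← lie_skew p.1, neg_add_cancel])
  leibniz_lie p q r := Prod.ext (leibniz_lie p.1 q.1 r.1) (by
    change ⁅p.1, ⁅q.1, r.2⁆ + ⁅q.2, r.1⁆⁆ + ⁅p.2, ⁅q.1, r.1⁆⁆ =
      ⁅⁅p.1, q.1⁆, r.2⁆ + ⁅⁅p.1, q.2⁆ + ⁅p.2, q.1⁆, r.1⁆ +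
      (⁅q.1, ⁅p.1, r.2⁆ + ⁅p.2, r.1⁆⁆ + ⁅q.2, ⁅p.1, r.1⁆⁆)
    simp only [lie_add, add_lie, lie_lie]; abel)
instance : LieAlgebra K (Du L) where
  lie_smul c p q := Prod.ext (lie_smul c p.1 q.1) (by
    change ⁅p.1, c • q.2⁆ + ⁅p.2, c • q.1⁆ = c • (⁅p.1, q.2⁆ + ⁅p.2, q.1⁆)
    simp)

open FreeLieAlgebra (of lift hom_ext lift_of_apply)

lemma exists_der {X : Type} (φ : X → FreeLieAlgebra K X) :
    ∃ D : LieDerivation K (FreeLieAlgebra K X) (FreeLieAlgebra K X), ∀ i, D (of K i) = φ i := by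
  let G : FreeLieAlgebra K X →ₗ⁅K⁆ Du (FreeLieAlgebra K X) := lift K fun i => (of K i, φ i)
  let p : Du (FreeLieAlgebra K X) →ₗ⁅K⁆ FreeLieAlgebra K X :=
    { toFun := fun a => a.1, map_add' := fun _ _ => rfl, map_smul' := fun _ _ => rfl
      map_lie' := rfl }
  have h : p.comp G = LieHom.id := hom_ext fun i => by simp [G, p]
  have h1 : ∀ a, (G a).1 = a := fun a => LieHom.congr_fun h a
  refine ⟨⟨⟨⟨fun a => (G a).2, fun a b => by rw [map_add]; rfl⟩, fun c a => congrArg Prod.snd (map_smul G c a)⟩,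
    fun a b => ?_⟩, fun i => ?_⟩
  · change (G ⁅a, b⁆).2 = ⁅a, (G b).2⁆ - ⁅b, (G a).2⁆
    rw [LieHom.map_lie]
    change ⁅(G a).1, (G b).2⁆ + ⁅(G a).2, (G b).1⁆ = _
    rw [h1, h1, ← lie_skew (G a).2, sub_eq_add_neg]
  · change (G (of K i)).2 = _
    simp [G]

lemma gen {X : Type} (S : LieSubalgebra K (FreeLieAlgebra K X)) (h : ∀ i, of K i ∈ S) (a) :
    a ∈ S := by
  have : S.incl.comp (lift K fun i => (⟨of K i, h i⟩ : S)) = LieHom.id := hom_ext fun i => by simp
  have e := LieHom.congr_fun this a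
  exact (show _ = a from e) ▸ Subtype.property _

lemma gen' {X : Type} (Q : Submodule K (FreeLieAlgebra K X)) (h : ∀ i, of K i ∈ Q)
    (h' : ∀ (a : FreeLieAlgebra K X) i, ⁅a, of K i⁆ ∈ Q) (a) : a ∈ Q := by
  have h1 : ∀ b a : FreeLieAlgebra K X, ⁅a, b⁆ ∈ Q := fun b => gen
    { carrier := {b | ∀ a : FreeLieAlgebra K X, ⁅a, b⁆ ∈ Q}
      add_mem' := fun h1 h2 a => by rw [lie_add]; exact add_mem (h1 a) (h2 a)
      zero_mem' := fun a => by simp
      smul_mem' := fun c _ h1 a => by rw [lie_smul]; exact Q.smul_mem c (h1 a)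
      lie_mem' := fun {b c} h1 h2 a => by
        rw [leibniz_lie, ← lie_skew b, ← sub_eq_add_neg]; exact sub_mem (h2 _) (h1 _) }
    (fun i a => h' a i) b
  exact gen { Q with lie_mem' := fun _ _ => h1 _ _ } h a

lemma der_ext {X : Type} {D D' : LieDerivation K (FreeLieAlgebra K X) (FreeLieAlgebra K X)}
    (h : ∀ i, D (of K i) = D' (of K i)) : D = D' :=
  LieDerivation.ext_of_lieSpan_eq_top (Set.range (of K))
    (eq_top_iff.2 fun a _ => gen _ (fun i => LieSubalgebra.subset_lieSpan (Set.mem_range_self i)) a)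
    (by rintro _ ⟨i, rfl⟩; exact h i)

lemma nil_lie (D : LieDerivation K L L) (n : ℕ) : ∀ i j a b, i + j = n →
    ((D : End K L) ^ i) a = 0 → ((D : End K L) ^ j) b = 0 → ((D : End K L) ^ n) ⁅a, b⁆ = 0 := by
  induction n with
  | zero =>
    intro i j a b h ha _
    obtain rfl : i = 0 := by omega
    simp at ha; simp [ha]
  | succ n ih =>
    intro i j a b h ha hb
    rcases i with _ | i
    · simp at ha; simp [ha]
    rcases j with _ | j
    · simp at hb; simp [hb]
    rw [pow_succ, End.mul_apply, LieDerivation.coeFn_coe, LieDerivation.apply_lie_eq_add, map_add,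
      ih (i + 1) j a (D b) (by omega) ha (by simpa [pow_succ] using hb),
      ih i (j + 1) (D a) b (by omega) (by simpa [pow_succ] using ha) hb, add_zero]

lemma loc_nil {X : Type} (D : LieDerivation K (FreeLieAlgebra K X) (FreeLieAlgebra K X))
    (h : ∀ i, D (D (of K i)) = 0) (a) : ∃ j, ((D : End K (FreeLieAlgebra K X)) ^ j) a = 0 := gen
  { carrier := {a | ∃ j, ((D : End K (FreeLieAlgebra K X)) ^ j) a = 0}
    add_mem' := nil_add
    zero_mem' := ⟨0, by simp⟩
    smul_mem' := fun c _ ⟨j, hj⟩ => ⟨j, by rw [map_smul, hj, smul_zero]⟩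
    lie_mem' := fun ⟨i, hi⟩ ⟨j, hj⟩ => ⟨i + j, nil_lie D _ i j _ _ rfl hi hj⟩ }
  (fun i => ⟨2, by simpa [pow_succ] using h i⟩) a

end der

open FreeLieAlgebra (of)

lemma main {K : Type} [Field K] [CharZero K]
    (e : LieDerivation K (FreeLieAlgebra K (Fin 2)) (FreeLieAlgebra K (Fin 2)))
    (hx : e (of K 0) = 0) (hy : e (of K 1) = of K 0) (u : FreeLieAlgebra K (Fin 2)) (hu : e u = 0) :
    ∃ (a : FreeLieAlgebra K (Fin 2)) (c : K), e (e a) = 0 ∧
      u = ⁅a, of K 0⁆ - ⁅e a, of K 1⁆ + c • of K 0 := by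
  let L := FreeLieAlgebra K (Fin 2)
  set x : L := of K 0
  set y : L := of K 1
  obtain ⟨f, hf⟩ := exists_der (K := K) (X := Fin 2) (![y, 0] : Fin 2 → L)
  have fx : f x = y := hf 0
  have fy : f y = 0 := hf 1
  let h : LieDerivation K L L := ⁅e, f⁆
  have hef : ∀ v, e (f v) = f (e v) + h v := fun v => by simp [h]
  have hx' : h x = x := by simp [h, fx, hx, hy]
  have hy' : h y = -y := by simp [h, fx, fy, hy]
  have hhe : ∀ v, h (e v) = e (h v) + (2 : K) • e v := fun v => by
    have : ⁅h, e⁆ = (2 : K) • e := der_ext (Fin.forall_fin_two.2 ⟨by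
      change h (e x) - e (h x) = (2 : K) • e x
      simp [hx, hx'], by
      change h (e y) - e (h y) = (2 : K) • e y
      simp [hy, hy', hx', two_smul]⟩)
    have := LieDerivation.congr_fun this v
    exact sub_eq_iff_eq_add'.1 this
  have hhf : ∀ v, h (f v) = f (h v) - (2 : K) • f v := fun v => by
    have : ⁅h, f⁆ = -((2 : K) • f) := der_ext (Fin.forall_fin_two.2 ⟨by
      change h (f x) - f (h x) = -((2 : K) • f x)
      simp [fx, hx', hy', two_smul, sub_eq_add_neg], by
      change h (f y) - f (h y) = -((2 : K) • f y)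
      simp [fy, hy']⟩)
    have := LieDerivation.congr_fun this v
    rw [sub_eq_add_neg]
    exact sub_eq_iff_eq_add'.1 this
  have ne := loc_nil e (Fin.forall_fin_two.2 ⟨by rw [hx, map_zero], by rw [hy, hx]⟩)
  have nf := loc_nil f (Fin.forall_fin_two.2 ⟨by rw [fx, fy], by rw [fy, map_zero]⟩)
  let E : End K (L × L × K × K) :=
    { toFun := fun w => (e w.1 + w.2.1, e w.2.1, w.2.2.2, 0)
      map_add' := fun v w => by ext <;> simp; abel
      map_smul' := fun c w => by ext <;> simp }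
  let F : End K (L × L × K × K) :=
    { toFun := fun w => (f w.1, f w.2.1 + w.1, 0, w.2.2.1)
      map_add' := fun v w => by ext <;> simp; abel
      map_smul' := fun c w => by ext <;> simp }
  let H : End K (L × L × K × K) :=
    { toFun := fun w => (h w.1 + w.1, h w.2.1 - w.2.1, w.2.2.1, -w.2.2.2)
      map_add' := fun v w => by ext <;> simp <;> abel
      map_smul' := fun c w => by ext <;> simp [smul_sub] }
  let μ : (L × L × K × K) →ₗ[K] L :=
    { toFun := fun w => ⁅w.1, x⁆ + ⁅w.2.1, y⁆ + w.2.2.1 • x + w.2.2.2 • y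
      map_add' := fun v w => by simp [add_smul]; abel
      map_smul' := fun c w => by simp [mul_smul] }
  have HEF : ∀ v, E (F v) = F (E v) + H v := fun v => by
    ext <;> simp [E, F, H, hef] <;> abel
  have HE : ∀ v, H (E v) = E (H v) + (2 : K) • E v := fun v => by
    ext <;> simp [E, H, hhe, two_smul] <;> abel
  have HF : ∀ v, H (F v) = F (H v) - (2 : K) • F v := fun v => by
    ext <;> simp [F, H, hhf, two_smul] <;> abel
  have μE : ∀ v, μ (E v) = e (μ v) := fun v => by
    simp [-LieDerivation.apply_lie_eq_sub, -lie_skew, μ, E, LieDerivation.apply_lie_eq_add, hx, hy]; abel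
  have μF : ∀ v, μ (F v) = f (μ v) := fun v => by
    simp [-LieDerivation.apply_lie_eq_sub, -lie_skew, μ, F, LieDerivation.apply_lie_eq_add, fx, fy]; abel
  have μH : ∀ v, μ (H v) = h (μ v) := fun v => by
    simp only [μ, H, LinearMap.coe_mk, AddHom.coe_mk, map_add, map_smul,
      LieDerivation.apply_lie_eq_add, hx', hy', add_lie, sub_lie, lie_neg, smul_neg]
    module
  have up : ∀ w, (∃ j, (E ^ j) (E w) = 0) → ∃ j, (E ^ j) w = 0 := fun w ⟨j, hj⟩ =>
    ⟨j + 1, by rwa [pow_succ, End.mul_apply]⟩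
  have n1 : ∀ a : L, ∃ j, (E ^ j) (a, 0, 0, 0) = 0 := fun a => by
    obtain ⟨j, hj⟩ := ne a
    induction j generalizing a with
    | zero => exact ⟨0, by simpa using hj⟩
    | succ j ih => exact up _ (by simpa [E] using ih (e a) (by simpa [pow_succ] using hj))
  have n2 : ∀ a : L, ∃ j, (E ^ j) (0, a, 0, 0) = 0 := fun a => by
    obtain ⟨j, hj⟩ := ne a
    induction j generalizing a with
    | zero => exact ⟨0, by simpa using hj⟩
    | succ j ih =>
      exact up _ (by simpa [E] using nil_add (n1 a) (ih (e a) (by simpa [pow_succ] using hj)))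
  have nE : ∀ w, ∃ j, (E ^ j) w = 0 := fun ⟨a, b, c, d⟩ => by
    have n3 : ∃ j, (E ^ j) (0, 0, c, d) = 0 := ⟨2, by simp [pow_succ, E]⟩
    simpa using nil_add (n1 a) (nil_add (n2 b) n3)
  let P : ℤ → Submodule K L := fun m => (H.eigenspace (m : K)).map μ
  have wt : ∀ a : L, a ∈ ⨆ m : ℤ, End.eigenspace (h : End K L) (m : K) := by
    refine gen { (⨆ m : ℤ, End.eigenspace (h : End K L) (m : K)) with
      lie_mem' := fun {a b} ha hb => ?_ } (Fin.forall_fin_two.2 ⟨?_, ?_⟩)
    · change _ ∈ ⨆ m : ℤ, End.eigenspace (h : End K L) (m : K) at ha hb ⊢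
      induction ha using Submodule.iSup_induction' with
      | zero => simp
      | add a a' _ _ h1 h2 => rw [add_lie]; exact add_mem h1 h2
      | mem m a ha =>
        induction hb using Submodule.iSup_induction' with
        | zero => simp
        | add b b' _ _ h1 h2 => rw [lie_add]; exact add_mem h1 h2
        | mem n b hb =>
          refine Submodule.mem_iSup_of_mem (m + n) ?_
          rw [End.mem_eigenspace_iff] at ha hb ⊢
          simp only [LieDerivation.coeFn_coe] at ha hb ⊢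
          simp [-LieDerivation.apply_lie_eq_sub, LieDerivation.apply_lie_eq_add, ha, hb, add_smul,
            add_comm]
    · exact Submodule.mem_iSup_of_mem (1 : ℤ) (End.mem_eigenspace_iff.2 (by simpa using hx'))
    · exact Submodule.mem_iSup_of_mem (-1 : ℤ) (End.mem_eigenspace_iff.2 (by simpa using hy'))
  have hP : u ∈ ⨆ m, P m := by
    refine gen' _ (Fin.forall_fin_two.2 ⟨?_, ?_⟩) (fun a => ?_) u
    · exact Submodule.mem_iSup_of_mem (1 : ℤ) ⟨(0, 0, 1, 0),
        End.mem_eigenspace_iff.2 (by simp [H]), by simp [μ, x]⟩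
    · exact Submodule.mem_iSup_of_mem (-1 : ℤ) ⟨(0, 0, 0, 1),
        End.mem_eigenspace_iff.2 (by simp [H]), by simp [μ, y]⟩
    · have ha := wt a
      induction ha using Submodule.iSup_induction' with
      | zero => simp
      | add a a' _ _ h1 h2 => intro i; rw [add_lie]; exact add_mem (h1 i) (h2 i)
      | mem m a ha =>
        rw [End.mem_eigenspace_iff] at ha
        simp only [LieDerivation.coeFn_coe] at ha
        refine Fin.forall_fin_two.2 ⟨?_, ?_⟩
        · exact Submodule.mem_iSup_of_mem (m + 1) ⟨(a, 0, 0, 0),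
            End.mem_eigenspace_iff.2 (by simp [H, ha, add_smul]), by simp [μ, x]⟩
        · exact Submodule.mem_iSup_of_mem (m - 1) ⟨(0, a, 0, 0),
            End.mem_eigenspace_iff.2 (by simp [H, ha, sub_smul]), by simp [μ, y]⟩
  obtain ⟨c, hc, hsum⟩ := (Submodule.mem_iSup_iff_exists_finsupp _ _).1 hP
  have hw : ∀ m : ℤ, h (c m) = (m : K) • c m := fun m => by
    obtain ⟨w, hw, hw'⟩ := hc m
    rw [← hw', ← μH, End.mem_eigenspace_iff.1 hw, map_smul]
  have h0 := indep (H := (h : End K L)) c.support (fun m => e (c m))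
    (fun m => by simp [hhe, hw, add_smul]) (by rw [← map_sum]; exact (congrArg e hsum).trans hu)
  have hT : u ∈ (LinearMap.ker E).map μ := by
    rw [← hsum]
    refine Submodule.sum_mem _ fun m hm => ?_
    rcases lt_or_ge m 0 with hm0 | hm0
    · obtain ⟨j, hj⟩ := nf (c m)
      rw [lemC (E := (e : End K L)) (F := (f : End K L)) (H := (h : End K L)) hef hhf (hw m) hm0
        (h0 m hm) j hj]
      exact zero_mem _
    · obtain ⟨w, hw, hw'⟩ := hc m
      obtain ⟨j, hj⟩ := nE (E w)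
      obtain ⟨n, hn, hn'⟩ := lemB HEF HF HE (LinearMap.ker μ)
        (fun v hv => by rw [LinearMap.mem_ker] at hv ⊢; rw [μE, hv, map_zero])
        (fun v hv => by rw [LinearMap.mem_ker] at hv ⊢; rw [μF, hv, map_zero]) j (E w)
        (by rw [LinearMap.mem_ker, μE, hw', h0 m hm]) (m + 2) 0
        (by rw [HE, End.mem_eigenspace_iff.1 hw, map_smul, ← add_smul]; push_cast; rfl) hj
        (by omega)
      refine ⟨w - n, ?_, ?_⟩
      · simp only [SetLike.mem_coe, LinearMap.mem_ker, map_sub, hn']; simp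
      · rw [map_sub, hw', LinearMap.mem_ker.1 hn, sub_zero]
  obtain ⟨⟨a, b, c, d⟩, h1, rfl⟩ := hT
  simp only [SetLike.mem_coe, LinearMap.mem_ker, E, LinearMap.coe_mk, AddHom.coe_mk,
    Prod.mk_eq_zero] at h1
  obtain ⟨h1, h2, rfl, -⟩ := h1
  obtain rfl : b = -e a := eq_neg_of_add_eq_zero_right h1
  exact ⟨a, c, by simpa using h2, by simp [-lie_skew, μ, sub_eq_add_neg]⟩

theorem result (K : Type) [Field K] [CharZero K] :
    Claim K (of K (0 : Fin 2)) (of K (1 : Fin 2)) := by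
  refine ⟨?_, fun e hx hy B u => ⟨fun hu => ?_, fun hu => ?_⟩⟩
  · obtain ⟨D, hD⟩ := exists_der (K := K) (![0, of K 0] : Fin 2 → FreeLieAlgebra K (Fin 2))
    exact ⟨D, hD 0, hD 1⟩
  · set U := LieSubalgebra.lieSpan K (FreeLieAlgebra K (Fin 2)) _
    have key : ∀ f, e (e f) = 0 → ⁅f, e f⁆ ∈ U := fun f hf => by
      by_cases h0 : e f = 0
      · simp [h0]
      · exact LieSubalgebra.subset_lieSpan (Or.inl (Or.inr
          ⟨by simp [LieDerivation.apply_lie_eq_add, hf], f, e f, 1, 1, by simp, by simpa, rfl⟩))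
    obtain ⟨a, c, ha, rfl⟩ := main e hx hy u hu
    refine add_mem ?_ (U.smul_mem c (LieSubalgebra.subset_lieSpan (Or.inl (Or.inl rfl))))
    have := sub_mem (sub_mem (key (a + of K 1) (by simp [ha, hx, hy])) (key a ha))
      (key (of K 1) (by rw [hy, hx]))
    convert this using 1
    simp only [map_add, hy, add_lie, lie_add, ← lie_skew (e a)]
    abel
  · induction hu using LieSubalgebra.lieSpan_induction with
    | mem c hc =>
      rcases hc with (rfl | hc) | hc
      exacts [hx, hc.1, hc.1]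
    | zero => simp
    | add a b _ _ ha hb => simp [ha, hb]
    | smul c a _ ha => simp [ha]
    | lie a b _ _ ha hb => simp [ha, hb]

end Pool.Agent.Results.MP_d68c88_al.Constants
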